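import Mathlib
import Pool.Agent.Helper17.DihFinal

set_option autoImplicit false

namespace Pool.Agent.Results.MP_c38931_co.DihedralQuotient

universe u

/-- If a finite group `G` has a normal subgroup `N` and a subgroup `K` of index `2` containing `N`
such that `x * x ∈ N` for all `x ∉ K` (so `G / N` is generalized dihedral), then every
`(v, k, lam)` difference set in `G` has `k ≤ lam + (lam ^ 2 * (2 * |N| - 1) + lam) ^ 2`. -/
theorem result (G : Type u) [Group G] [Fintype G] [DecidableEq G] (D : Finset G) (lam : ℕ)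
    (hlam : 1 ≤ lam)
    (hrep : ∀ g : G, g ≠ 1 → ((D ×ˢ D).filter (fun p => p.1 * p.2⁻¹ = g)).card = lam)
    (N K : Subgroup G) (hN : N.Normal) (hNK : N ≤ K) (hK : K.index = 2)
    (hinv : ∀ x, x ∉ K → x * x ∈ N) :
    D.card ≤ lam + (lam ^ 2 * (2 * Nat.card N - 1) + lam) ^ 2 :=
  Pool.Agent.Helper17.DihQ.final D lam hlam hrep N K hN hNK hK hinv

end Pool.Agent.Results.MP_c38931_co.DihedralQuotient
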