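import Mathlib
import Pool.Agent.Helper17.Trs.All

set_option autoImplicit false

namespace Pool.Agent.Helper17.Old.OneOfThree

open Real

/-- At least one of the three numbers `π ^ π, π ^ √2, e ^ (π ^ 2)` is transcendental. -/
theorem result :
    Transcendental ℤ (π ^ π) ∨ Transcendental ℤ (π ^ √2) ∨ Transcendental ℤ (exp 1 ^ (π ^ 2)) :=
  Trs.three_B

end Pool.Agent.Helper17.Old.OneOfThree
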