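import Pool.Agent.Helper38.PiE.All

/-!
If `π^√2` is algebraic, then `πe` and `π/e` are transcendental, and so is at least one of the three
numbers `π^π`, `e^e`, `π^e`.
-/

namespace Pool.Agent.Helper17.Old.SqrtTwoCase

open _root_.Trs

theorem result (h : IsAlgebraic ℤ (Real.pi ^ Real.sqrt 2)) :
    Transcendental ℤ (Real.pi * Real.exp 1) ∧ Transcendental ℤ (Real.pi / Real.exp 1) ∧
      (Transcendental ℤ (Real.pi ^ Real.pi) ∨ Transcendental ℤ (Real.exp 1 ^ Real.exp 1) ∨
        Transcendental ℤ (Real.pi ^ Real.exp 1)) := by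
  have h7 : ¬ Transcendental ℚ (nine 7) := fun h1 =>
    (transc_int_iff (x := Real.pi ^ Real.sqrt 2)).2 h1 h
  simp only [transc_int_iff]
  refine ⟨?_, ?_, ?_⟩
  · obtain ⟨i, hi, hti⟩ := Pool.Agent.Helper38.PiE.s27
    simp only [Finset.mem_insert, Finset.mem_singleton] at hi
    rcases hi with rfl | rfl
    · exact hti
    · exact absurd hti h7
  · obtain ⟨i, hi, hti⟩ := Pool.Agent.Helper38.PiE.s37
    simp only [Finset.mem_insert, Finset.mem_singleton] at hi
    rcases hi with rfl | rfl
    · exact hti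
    · exact absurd hti h7
  · obtain ⟨i, hi, hti⟩ := sA
    simp only [Finset.mem_insert, Finset.mem_singleton] at hi
    rcases hi with rfl | rfl | rfl | rfl
    · exact Or.inl hti
    · exact Or.inr (Or.inl hti)
    · exact Or.inr (Or.inr hti)
    · exact absurd hti h7

end Pool.Agent.Helper17.Old.SqrtTwoCase
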